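import Pool.Agent.Helper14.T3.StL

/-!
# Project T3 (MP_1d384c_nt), module Dsb: basic facts on Dedekind sums
-/

set_option autoImplicit false

namespace Pool.Agent.Helper71.T3

open Pool.Agent.Helper14.T3

private lemma emod_inv {p p' : ℤ} {q : ℕ} (h : (q : ℤ) ∣ p * p' - 1) {k : ℕ} (hk : k < q) :
    (p' * ((p * (k : ℤ)) % (q : ℤ))) % (q : ℤ) = k := by
  have h1 : (p' * ((p * (k : ℤ)) % (q : ℤ))) ≡ (k : ℤ) [ZMOD (q : ℤ)] := by
    have h2 : (p * (k : ℤ)) % (q : ℤ) ≡ p * (k : ℤ) [ZMOD (q : ℤ)] := Int.mod_modEq _ _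
    refine (h2.mul_left p').trans ?_
    rw [Int.modEq_iff_dvd]
    obtain ⟨c, hc⟩ := h
    exact ⟨-c * k, by linear_combination -(k : ℤ) * hc⟩
  have h3 : (k : ℤ) % (q : ℤ) = k := Int.emod_eq_of_lt (by positivity) (by exact_mod_cast hk)
  have h4 : (p' * ((p * (k : ℤ)) % (q : ℤ))) % (q : ℤ) = (k : ℤ) % (q : ℤ) := h1
  rw [h4, h3]

/-- **Module DSB.** -/
theorem hDsb : Dsb := by
  intro p q hq
  have hq0 : (0 : ℤ) < q := by exact_mod_cast hq
  refine ⟨?_, ?_, ?_⟩
  · intro p' h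
    unfold dS
    refine Finset.sum_congr rfl fun k _ => ?_
    have h1 : p ≡ p' [ZMOD (q : ℤ)] := by
      rw [Int.modEq_iff_dvd]
      obtain ⟨c, hc⟩ := h
      exact ⟨-c, by linear_combination -hc⟩
    have h2 : (p * (k : ℤ)) % (q : ℤ) = (p' * (k : ℤ)) % (q : ℤ) := h1.mul_right (k : ℤ)
    rw [h2]
  · intro hc
    have key : ∀ k ∈ Finset.range q,
        (k : ℤ) * ((p * (k : ℤ)) % (q : ℤ)) + (k : ℤ) * ((-p * (k : ℤ)) % (q : ℤ)) = (k : ℤ) * q := by
      intro k hk
      rw [Finset.mem_range] at hk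
      rcases Nat.eq_zero_or_pos k with rfl | hk0
      · simp
      · rw [← mul_add]
        congr 1
        have hnd : ¬ (q : ℤ) ∣ p * k := by
          intro hd
          have h1 : (q : ℤ) ∣ k := (hc.symm).dvd_of_dvd_mul_left hd
          have h2 := Int.le_of_dvd (by exact_mod_cast hk0) h1
          omega
        have h1 : 0 < (p * (k : ℤ)) % (q : ℤ) :=
          lt_of_le_of_ne (Int.emod_nonneg _ hq0.ne') (fun h => hnd (Int.dvd_of_emod_eq_zero h.symm))
        have h2 := Int.emod_lt_of_pos (p * (k : ℤ)) hq0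
        have h3 : (-p * (k : ℤ)) % (q : ℤ) = q - (p * (k : ℤ)) % (q : ℤ) := by
          have e : -p * (k : ℤ) = (q - (p * (k : ℤ)) % (q : ℤ)) + q * (-(p * (k : ℤ) / q) - 1) := by
            have h4 := Int.emod_add_mul_ediv (p * (k : ℤ)) (q : ℤ)
            linear_combination h4
          rw [e, Int.add_mul_emod_self_left, Int.emod_eq_of_lt (by omega) (by omega)]
        rw [h3]
        ring
    have hsum : (∑ k ∈ Finset.range q, (k : ℤ)) * 2 = (q : ℤ) * (q - 1) := by
      have h1 := Finset.sum_range_id_mul_two q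
      have h2 : (((∑ k ∈ Finset.range q, k) * 2 : ℕ) : ℤ) = ((q * (q - 1) : ℕ) : ℤ) := by rw [h1]
      push_cast [Nat.cast_sub hq] at h2
      exact h2
    unfold dS
    rw [← Finset.sum_add_distrib, Finset.sum_congr rfl key, ← Finset.sum_mul]
    linear_combination (q : ℤ) * hsum
  · intro p' h
    have h' : (q : ℤ) ∣ p' * p - 1 := by rwa [mul_comm p' p]
    have hb : ∀ x : ℤ, 0 ≤ x % (q : ℤ) := fun x => Int.emod_nonneg _ hq0.ne'
    have hl : ∀ x : ℤ, x % (q : ℤ) < q := fun x => Int.emod_lt_of_pos _ hq0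
    unfold dS
    refine Finset.sum_nbij' (fun k => ((p * (k : ℤ)) % (q : ℤ)).toNat)
      (fun k => ((p' * (k : ℤ)) % (q : ℤ)).toNat) ?_ ?_ ?_ ?_ ?_
    · intro k _
      rw [Finset.mem_range]
      have h1 := hb (p * (k : ℤ))
      have h2 := hl (p * (k : ℤ))
      omega
    · intro k _
      rw [Finset.mem_range]
      have h1 := hb (p' * (k : ℤ))
      have h2 := hl (p' * (k : ℤ))
      omega
    · intro k hk
      rw [Finset.mem_range] at hk
      rw [Int.toNat_of_nonneg (hb _), emod_inv h hk, Int.toNat_natCast]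
    · intro k hk
      rw [Finset.mem_range] at hk
      rw [Int.toNat_of_nonneg (hb _), emod_inv h' hk, Int.toNat_natCast]
    · intro k hk
      rw [Finset.mem_range] at hk
      rw [Int.toNat_of_nonneg (hb _), emod_inv h hk]
      ring

end Pool.Agent.Helper71.T3
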