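import Pool.Agent.Helper28.T3.StA

/-!
# Project T3 (MP_1d384c_nt), module CUB: the cubic form of an ideal class of order 3
-/

set_option autoImplicit false

open scoped NumberField

namespace Pool.Agent.Helper71.T3

open Pool.Agent.Helper28.T3

section coords

variable {D : ℕ} {K : Type} [Field K] [NumberField K]

private noncomputable def cs (h : QF D K) (x : 𝓞 K) : ℤ := h.b.repr x 0

private noncomputable def ct (h : QF D K) (x : 𝓞 K) : ℤ := h.b.repr x 1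

private lemma dec (h : QF D K) (x : 𝓞 K) : x = (cs h x : 𝓞 K) + (ct h x : 𝓞 K) * h.b 1 := by
  have h1 := h.b.sum_repr x
  rw [Fin.sum_univ_two, h.hb0] at h1
  simp only [zsmul_eq_mul, mul_one] at h1
  exact h1.symm

private lemma mk_eq (h : QF D K) (s t : ℤ) :
    (s : 𝓞 K) + (t : 𝓞 K) * h.b 1 = s • h.b 0 + t • h.b 1 := by
  rw [h.hb0]
  simp only [zsmul_eq_mul, mul_one]

private lemma cs_mk (h : QF D K) (s t : ℤ) : cs h ((s : 𝓞 K) + (t : 𝓞 K) * h.b 1) = s := by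
  unfold cs
  rw [mk_eq, map_add, map_zsmul, map_zsmul, Module.Basis.repr_self, Module.Basis.repr_self]
  simp only [Finsupp.add_apply, Finsupp.smul_apply, smul_eq_mul]
  rw [Finsupp.single_eq_same, Finsupp.single_apply, if_neg (by decide)]
  ring

private lemma ct_mk (h : QF D K) (s t : ℤ) : ct h ((s : 𝓞 K) + (t : 𝓞 K) * h.b 1) = t := by
  unfold ct
  rw [mk_eq, map_add, map_zsmul, map_zsmul, Module.Basis.repr_self, Module.Basis.repr_self]
  simp only [Finsupp.add_apply, Finsupp.smul_apply, smul_eq_mul]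
  rw [Finsupp.single_eq_same, Finsupp.single_apply, if_neg (by decide)]
  ring

private lemma mul_eq (h : QF D K) (x y : 𝓞 K) :
    x * y = ((cs h x * cs h y - h.e * (ct h x * ct h y) : ℤ) : 𝓞 K) +
      ((cs h x * ct h y + ct h x * cs h y + ct h x * ct h y : ℤ) : 𝓞 K) * h.b 1 := by
  conv_lhs => rw [dec h x, dec h y]
  push_cast
  linear_combination ((ct h x : 𝓞 K) * (ct h y : 𝓞 K)) * h.hb1

private lemma cs_mul (h : QF D K) (x y : 𝓞 K) :
    cs h (x * y) = cs h x * cs h y - h.e * (ct h x * ct h y) := by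
  rw [mul_eq h x y, cs_mk]

private lemma ct_mul (h : QF D K) (x y : 𝓞 K) :
    ct h (x * y) = cs h x * ct h y + ct h x * cs h y + ct h x * ct h y := by
  rw [mul_eq h x y, ct_mk]

private lemma cs_one (h : QF D K) : cs h 1 = 1 := by
  have := cs_mk h 1 0
  simpa using this

private lemma ct_one (h : QF D K) : ct h 1 = 0 := by
  have := ct_mk h 1 0
  simpa using this

private lemma cs_om (h : QF D K) : cs h (h.b 1) = 0 := by
  have := cs_mk h 0 1
  simpa using this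

private lemma ct_om (h : QF D K) : ct h (h.b 1) = 1 := by
  have := ct_mk h 0 1
  simpa using this

private noncomputable def nf (h : QF D K) (x : 𝓞 K) : ℤ :=
  cs h x ^ 2 + cs h x * ct h x + h.e * ct h x ^ 2

private lemma norm_eq (h : QF D K) (x : 𝓞 K) : Algebra.norm ℤ x = nf h x := by
  rw [Algebra.norm_eq_matrix_det h.b x, Matrix.det_fin_two]
  simp only [Algebra.leftMulMatrix_eq_repr_mul]
  have e00 : (h.b.repr (x * h.b 0)) 0 = cs h (x * h.b 0) := rfl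
  have e01 : (h.b.repr (x * h.b 1)) 0 = cs h (x * h.b 1) := rfl
  have e10 : (h.b.repr (x * h.b 0)) 1 = ct h (x * h.b 0) := rfl
  have e11 : (h.b.repr (x * h.b 1)) 1 = ct h (x * h.b 1) := rfl
  rw [e00, e01, e10, e11, cs_mul, cs_mul, ct_mul, ct_mul, h.hb0, cs_one, ct_one, cs_om, ct_om]
  unfold nf
  ring

private lemma nf_four (h : QF D K) (x : 𝓞 K) :
    4 * nf h x = (2 * cs h x + ct h x) ^ 2 + D * ct h x ^ 2 := by
  unfold nf
  linear_combination (ct h x ^ 2) * h.he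

private lemma nf_nonneg (h : QF D K) (x : 𝓞 K) : 0 ≤ nf h x := by
  have h1 := nf_four h x
  have h2 : (0 : ℤ) ≤ (D : ℤ) * ct h x ^ 2 := by positivity
  nlinarith [sq_nonneg (2 * cs h x + ct h x)]

private lemma norm_span (h : QF D K) (x : 𝓞 K) :
    ((Ideal.absNorm (Ideal.span ({x} : Set (𝓞 K))) : ℕ) : ℤ) = nf h x := by
  rw [Ideal.absNorm_span_singleton, norm_eq h x]
  exact Int.natAbs_of_nonneg (nf_nonneg h x)

private lemma cs_lin (h : QF D K) (x y : ℤ) (z w : 𝓞 K) :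
    cs h (x * z + y * w) = x * cs h z + y * cs h w := by
  have h1 : (x : 𝓞 K) * z + y * w = x • z + y • w := by simp [zsmul_eq_mul]
  unfold cs
  rw [h1, map_add, map_zsmul, map_zsmul]
  simp only [Finsupp.add_apply, Finsupp.smul_apply, smul_eq_mul]

private lemma ct_lin (h : QF D K) (x y : ℤ) (z w : 𝓞 K) :
    ct h (x * z + y * w) = x * ct h z + y * ct h w := by
  have h1 : (x : 𝓞 K) * z + y * w = x • z + y • w := by simp [zsmul_eq_mul]
  unfold ct
  rw [h1, map_add, map_zsmul, map_zsmul]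
  simp only [Finsupp.add_apply, Finsupp.smul_apply, smul_eq_mul]

private lemma nf_ne (h : QF D K) (hD : 0 < D) (x : 𝓞 K) (hx : nf h x = 0) :
    cs h x = 0 ∧ ct h x = 0 := by
  have h7 := nf_four h x
  rw [hx] at h7
  have hDp : (0 : ℤ) < (D : ℤ) := by exact_mod_cast hD
  have h9 : ct h x = 0 := by
    by_contra hne
    have h3 : 0 < (D : ℤ) * ct h x ^ 2 := by positivity
    have h4 := sq_nonneg (2 * cs h x + ct h x)
    linarith
  refine ⟨?_, h9⟩
  rw [h9] at h7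
  have h5 : (2 * cs h x) ^ 2 = 0 := by linear_combination -h7
  have h6 := (pow_eq_zero_iff (two_ne_zero)).1 h5
  omega

/-- the coordinates of a quotient -/
private lemma quot (h : QF D K) (α θ x : 𝓞 K) (hx : α * θ = x) :
    nf h α * ct h θ = cs h α * ct h x - ct h α * cs h x := by
  rw [← hx, cs_mul, ct_mul]
  unfold nf
  ring

end coords

private lemma ints (u v e s0 t0 s1 t1 n a b c d D : ℤ) (he : 4 * e = D + 1) (hn0 : n ≠ 0)
    (hN : n ^ 3 = u ^ 2 + u * v + e * v ^ 2) (hdet : (s0 * t1 - s1 * t0) ^ 2 = n ^ 2)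
    (T0 T1 T2 T3 S0 S1 S2 S3 S00 S01 S11 T00 T01 T11 : ℤ)
    (hS00 : S00 = s0 * s0 - e * (t0 * t0)) (hT00 : T00 = s0 * t0 + t0 * s0 + t0 * t0)
    (hS01 : S01 = s0 * s1 - e * (t0 * t1)) (hT01 : T01 = s0 * t1 + t0 * s1 + t0 * t1)
    (hS11 : S11 = s1 * s1 - e * (t1 * t1)) (hT11 : T11 = s1 * t1 + t1 * s1 + t1 * t1)
    (hS0 : S0 = S00 * s0 - e * (T00 * t0)) (hT0 : T0 = S00 * t0 + T00 * s0 + T00 * t0)
    (hS1 : S1 = S00 * s1 - e * (T00 * t1)) (hT1 : T1 = S00 * t1 + T00 * s1 + T00 * t1)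
    (hS2 : S2 = S01 * s1 - e * (T01 * t1)) (hT2 : T2 = S01 * t1 + T01 * s1 + T01 * t1)
    (hS3 : S3 = S11 * s1 - e * (T11 * t1)) (hT3 : T3 = S11 * t1 + T11 * s1 + T11 * t1)
    (q0 : n ^ 3 * a = u * T0 - v * S0) (q1 : n ^ 3 * b = u * T1 - v * S1)
    (q2 : n ^ 3 * c = u * T2 - v * S2) (q3 : n ^ 3 * d = u * T3 - v * S3) :
    n * cA a b c = s0 ^ 2 + s0 * t0 + e * t0 ^ 2 ∧ n * cA d c b = s1 ^ 2 + s1 * t1 + e * t1 ^ 2 ∧
      n * cB a b c d = 2 * s0 * s1 + s0 * t1 + s1 * t0 + 2 * e * t0 * t1 ∧ cD a b c d = D := by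
  have hn3 : n ^ 3 ≠ 0 := pow_ne_zero _ hn0
  have hn2 : n ^ 2 ≠ 0 := pow_ne_zero _ hn0
  have hA : n * cA a b c = s0 ^ 2 + s0 * t0 + e * t0 ^ 2 := by
    have h5 : n ^ 3 * (n ^ 3 * cA a b c) = n ^ 3 * ((s0 ^ 2 + s0 * t0 + e * t0 ^ 2) * (s0 * t1 - s1 * t0) ^ 2) := by
      have h6 : n ^ 3 * (n ^ 3 * cA a b c) = (n ^ 3 * b) ^ 2 - (n ^ 3 * a) * (n ^ 3 * c) := by
        unfold cA; ring
      rw [h6, q0, q1, q2, hN, hT0, hS0, hT1, hS1, hT2, hS2, hT00, hS00, hT01, hS01]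
      ring
    have h7 := mul_left_cancel₀ hn3 h5
    rw [hdet] at h7
    have h8 : n ^ 2 * (n * cA a b c) = n ^ 2 * (s0 ^ 2 + s0 * t0 + e * t0 ^ 2) := by
      linear_combination h7
    exact mul_left_cancel₀ hn2 h8
  have hC : n * cA d c b = s1 ^ 2 + s1 * t1 + e * t1 ^ 2 := by
    have h5 : n ^ 3 * (n ^ 3 * cA d c b) = n ^ 3 * ((s1 ^ 2 + s1 * t1 + e * t1 ^ 2) * (s0 * t1 - s1 * t0) ^ 2) := by
      have h6 : n ^ 3 * (n ^ 3 * cA d c b) = (n ^ 3 * c) ^ 2 - (n ^ 3 * d) * (n ^ 3 * b) := by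
        unfold cA; ring
      rw [h6, q1, q2, q3, hN, hT1, hS1, hT2, hS2, hT3, hS3, hT00, hS00, hT01, hS01, hT11, hS11]
      ring
    have h7 := mul_left_cancel₀ hn3 h5
    rw [hdet] at h7
    have h8 : n ^ 2 * (n * cA d c b) = n ^ 2 * (s1 ^ 2 + s1 * t1 + e * t1 ^ 2) := by
      linear_combination h7
    exact mul_left_cancel₀ hn2 h8
  have hB : n * cB a b c d = 2 * s0 * s1 + s0 * t1 + s1 * t0 + 2 * e * t0 * t1 := by
    have h5 : n ^ 3 * (n ^ 3 * cB a b c d) = n ^ 3 * ((2 * s0 * s1 + s0 * t1 + s1 * t0 + 2 * e * t0 * t1) * (s0 * t1 - s1 * t0) ^ 2) := by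
      have h6 : n ^ 3 * (n ^ 3 * cB a b c d) = (n ^ 3 * b) * (n ^ 3 * c) - (n ^ 3 * a) * (n ^ 3 * d) := by
        unfold cB; ring
      rw [h6, q0, q1, q2, q3, hN, hT0, hS0, hT1, hS1, hT2, hS2, hT3, hS3, hT00, hS00, hT01, hS01, hT11, hS11]
      ring
    have h7 := mul_left_cancel₀ hn3 h5
    rw [hdet] at h7
    have h8 : n ^ 2 * (n * cB a b c d) = n ^ 2 * (2 * s0 * s1 + s0 * t1 + s1 * t0 + 2 * e * t0 * t1) := by
      linear_combination h7
    exact mul_left_cancel₀ hn2 h8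
  refine ⟨hA, hC, hB, ?_⟩
  have h5 : n ^ 2 * cD a b c d = n ^ 2 * D := by
    have h6 : n ^ 2 * cD a b c d = 4 * (n * cA a b c) * (n * cA d c b) - (n * cB a b c d) ^ 2 := by
      unfold cD; ring
    have h7 : D = 4 * e - 1 := by linear_combination -he
    rw [h6, hA, hB, hC, ← hdet, h7]
    ring
  exact mul_left_cancel₀ hn2 h5

/-- **Module CUB.** -/
theorem hCUB : StCUB := by
  intro D K _ _ h hD I α hI hIα hnp
  set bI := I.selfBasis h.b hI with hbI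
  set z0 : 𝓞 K := (bI 0 : 𝓞 K) with hz0
  set z1 : 𝓞 K := (bI 1 : 𝓞 K) with hz1
  have hm0 : z0 ∈ I := (bI 0).2
  have hm1 : z1 ∈ I := (bI 1).2
  set n : ℤ := ((Ideal.absNorm I : ℕ) : ℤ) with hn
  have hn0 : n ≠ 0 := by
    rw [hn]
    exact_mod_cast fun h0 => hI (Ideal.absNorm_eq_zero_iff.1 h0)
  have hnpos : 0 < n := lt_of_le_of_ne (by rw [hn]; positivity) (Ne.symm hn0)
  -- the determinant
  have hdet : (cs h z0 * ct h z1 - cs h z1 * ct h z0) ^ 2 = n ^ 2 := by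
    have h1 := Ideal.natAbs_det_basis_change h.b I bI
    have h2 : h.b.det ((↑) ∘ bI) = cs h z0 * ct h z1 - cs h z1 * ct h z0 := by
      rw [Module.Basis.det_apply, Matrix.det_fin_two]
      rfl
    rw [← h2, hn, ← h1, Int.natCast_natAbs, sq_abs]
  -- the norm of the generator
  have hα : nf h α = n ^ 3 := by
    rw [← norm_span h α, ← hIα, map_pow, hn]
    push_cast
    rfl
  have hαn : nf h α ≠ 0 := by rw [hα]; exact pow_ne_zero _ hn0
  -- quotients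
  have hmem : ∀ x y z : 𝓞 K, x ∈ I → y ∈ I → z ∈ I → ∃ θ : 𝓞 K, α * θ = x * y * z := by
    intro x y z hx hy hz
    have h1 : x * y * z ∈ I ^ 3 := by
      rw [pow_succ, pow_two]
      exact Ideal.mul_mem_mul (Ideal.mul_mem_mul hx hy) hz
    rw [hIα, Ideal.mem_span_singleton] at h1
    obtain ⟨θ, hθ⟩ := h1
    exact ⟨θ, hθ.symm⟩
  obtain ⟨θ0, h0⟩ := hmem z0 z0 z0 hm0 hm0 hm0
  obtain ⟨θ1, h1⟩ := hmem z0 z0 z1 hm0 hm0 hm1
  obtain ⟨θ2, h2⟩ := hmem z0 z1 z1 hm0 hm1 hm1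
  obtain ⟨θ3, h3⟩ := hmem z1 z1 z1 hm1 hm1 hm1
  have q0 := quot h α θ0 _ h0
  have q1 := quot h α θ1 _ h1
  have q2 := quot h α θ2 _ h2
  have q3 := quot h α θ3 _ h3
  rw [hα] at q0 q1 q2 q3
  obtain ⟨hA, hC, hB, hDd⟩ := ints (cs h α) (ct h α) h.e (cs h z0) (ct h z0) (cs h z1) (ct h z1) n
    (ct h θ0) (ct h θ1) (ct h θ2) (ct h θ3) D h.he hn0 (by rw [← hα]; rfl) hdet
    (ct h (z0 * z0 * z0)) (ct h (z0 * z0 * z1)) (ct h (z0 * z1 * z1)) (ct h (z1 * z1 * z1))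
    (cs h (z0 * z0 * z0)) (cs h (z0 * z0 * z1)) (cs h (z0 * z1 * z1)) (cs h (z1 * z1 * z1))
    (cs h (z0 * z0)) (cs h (z0 * z1)) (cs h (z1 * z1)) (ct h (z0 * z0)) (ct h (z0 * z1)) (ct h (z1 * z1))
    (cs_mul _ _ _) (ct_mul _ _ _) (cs_mul _ _ _) (ct_mul _ _ _) (cs_mul _ _ _) (ct_mul _ _ _)
    (cs_mul _ _ _) (ct_mul _ _ _) (cs_mul _ _ _) (ct_mul _ _ _) (cs_mul _ _ _) (ct_mul _ _ _)
    (cs_mul _ _ _) (ct_mul _ _ _) q0 q1 q2 q3
  generalize ct h θ0 = a at *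
  generalize ct h θ1 = b at *
  generalize ct h θ2 = c at *
  generalize ct h θ3 = d at *
  have hQ : ∀ x y : ℤ, n * (cA a b c * x ^ 2 + cB a b c d * x * y + cA d c b * y ^ 2) =
      nf h ((x : 𝓞 K) * z0 + y * z1) := by
    intro x y
    unfold nf
    rw [cs_lin, ct_lin]
    linear_combination x ^ 2 * hA + x * y * hB + y ^ 2 * hC
  refine ⟨a, b, c, d, hDd, ?_, ?_⟩
  · -- positivity
    have h5 : 0 ≤ n * cA a b c := by
      rw [hA]
      exact nf_nonneg h z0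
    have h6 : n * cA a b c ≠ 0 := by
      intro h0
      have h8 : nf h z0 = 0 := by
        rw [← h0, hA]
        rfl
      obtain ⟨h9, h10⟩ := nf_ne h hD z0 h8
      rw [h9, h10] at hdet
      apply pow_ne_zero 2 hn0
      rw [← hdet]
      ring
    have h7 : 0 < n * cA a b c := lt_of_le_of_ne h5 (Ne.symm h6)
    exact (mul_pos_iff_of_pos_left hnpos).1 h7
  · -- no element of the smallest norm
    intro x y h1'
    have h5 := hQ x y
    rw [h1', mul_one] at h5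
    set w : 𝓞 K := (x : 𝓞 K) * z0 + y * z1 with hw
    have hwI : w ∈ I := I.add_mem (I.mul_mem_left _ hm0) (I.mul_mem_left _ hm1)
    have hle : Ideal.span ({w} : Set (𝓞 K)) ≤ I := by
      rw [Ideal.span_le]
      simpa using hwI
    obtain ⟨J, hJ⟩ := Ideal.dvd_iff_le.2 hle
    have h6 : ((Ideal.absNorm (Ideal.span ({w} : Set (𝓞 K))) : ℕ) : ℤ) = n := by
      rw [norm_span h w, ← h5]
    have h7 : Ideal.absNorm (Ideal.span ({w} : Set (𝓞 K))) = Ideal.absNorm I := by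
      have h6' := h6
      rw [hn] at h6'
      exact_mod_cast h6'
    rw [hJ, map_mul] at h7
    have h8 : Ideal.absNorm J = 1 := by
      have h9 : Ideal.absNorm I ≠ 0 := fun h0 => hI (Ideal.absNorm_eq_zero_iff.1 h0)
      exact Nat.eq_of_mul_eq_mul_left (Nat.pos_of_ne_zero h9) (by rw [h7, mul_one])
    rw [Ideal.absNorm_eq_one_iff] at h8
    rw [h8, Ideal.mul_top] at hJ
    exact hnp ⟨w, by rw [← hJ]⟩

end Pool.Agent.Helper71.T3
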